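import Mathlib

/-! Pluricanonical forms of the first kind on a function field, general type, and the weak
Bombieri conjecture on rational points. -/

set_option autoImplicit false

namespace Pool.Agent.Lib.MP_62ba83_co.G

variable {K : Type} [Field K] [CharZero K]

/-- The form `g (df₁ ∧ … ∧ dfₙ) ^ m` has no pole: at every discrete valuation that is trivial on
the rationals its value on derivations preserving the valuation ring is integral. -/
def NoPole {n : ℕ} (m : ℕ) (f : Fin n → K) (g : K) : Prop :=
  ∀ v : Valuation K (WithZero (Multiplicative ℤ)), Function.Surjective v →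
    (∀ q : ℚ, v (q : K) ≤ 1) → ∀ δ : Fin n → Derivation ℚ K K,
      (∀ i a, v a ≤ 1 → v (δ i a) ≤ 1) → v (g * (Matrix.of fun j i => δ i (f j)).det ^ m) ≤ 1

/-- `K` has positive finite transcendence degree and, for some `m > 0`, is algebraic over the field
generated by the ratios of its `m`-canonical forms without poles. -/
def GeneralType (K : Type) [Field K] [CharZero K] : Prop :=
  ∃ (n m : ℕ) (f : Fin n → K) (g : K), 0 < n ∧ 0 < m ∧ IsTranscendenceBasis ℚ f ∧ g ≠ 0 ∧
    NoPole m f g ∧ Algebra.IsAlgebraic (IntermediateField.adjoin ℚ {h | NoPole m f (g * h)}) K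

/-- On an affine variety over the rationals, given by a generic point `x` whose function field is
of general type, the rational points are not Zariski dense. -/
def BombieriLang : Prop :=
  ∀ (K : Type) [Field K] [CharZero K] (N : ℕ) (x : Fin N → K),
    IntermediateField.adjoin ℚ (Set.range x) = ⊤ → GeneralType K →
      ∃ F : MvPolynomial (Fin N) ℚ, MvPolynomial.aeval x F ≠ 0 ∧ ∀ r : Fin N → ℚ,
        (∀ G : MvPolynomial (Fin N) ℚ, MvPolynomial.aeval x G = 0 → MvPolynomial.eval r G = 0) →
          MvPolynomial.eval r F = 0

end Pool.Agent.Lib.MP_62ba83_co.G
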