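import Pool.Agent.Lib.MP_62ba83_co.G.CombA

/-! The greedy tree of an ultrametric on five points. -/

set_option autoImplicit false

namespace Pool.Agent.Lib.MP_62ba83_co.G

/-- the ten pairs of disjoint edges that are used -/
def quads : List (Fin 5 × Fin 5 × Fin 5 × Fin 5) :=
  [(0, 1, 2, 3), (0, 1, 2, 4), (0, 1, 3, 4), (0, 2, 3, 4), (1, 2, 3, 4), (0, 3, 2, 4), (1, 3, 2, 4),
    (0, 4, 2, 3), (1, 4, 2, 3), (0, 2, 1, 3)]

/-- the sum over the nine edges other than the first -/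
def sum9 (α : Fin 5 → Fin 5 → ℤ) : ℤ :=
  α 0 2 + α 1 2 + α 0 3 + α 1 3 + α 2 3 + α 0 4 + α 1 4 + α 2 4 + α 3 4

/-- ultrametric weights have a greedy tree with the inequality -/
theorem comb (α : Fin 5 → Fin 5 → ℤ) (sym : ∀ a b, a ≠ b → α a b = α b a)
    (ult : ∀ a b c, a ≠ b → a ≠ c → b ≠ c → min (α a c) (α c b) ≤ α a b) (h01 : α 0 1 = 0) :
    ∃ par : Fin 3 → Fin 5, (∀ k, par k < k.addNat 2) ∧ ∀ q ∈ quads,
      sum9 α ≤ 2 * ∑ k, α (par k) (k.addNat 2) + (α q.1 q.2.1 + α q.2.2.1 q.2.2.2) ∧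
        (sum9 α = 2 * ∑ k, α (par k) (k.addNat 2) + (α q.1 q.2.1 + α q.2.2.1 q.2.2.2) →
          ∀ a b, a < b → α a b = 0) := by
  have key : ∀ k p j : Fin 5, p ≠ k → j ≠ k → j ≠ p → α j k ≤ α p k →
      Mn (α j k) (α p k) (α p j) ∧ Mn (α j k) (α p k) (α j p) := by
    intro k p j h1 h2 h3 h
    have e1 := ult j k p h2 h3 h1.symm
    have e2 := ult p j k h3.symm h1 h2
    have e3 := sym j p h3
    have e4 := sym j k h2
    unfold Mn
    omega
  have ex : ∀ k : Fin 3, ∃ p : Fin 5, p < k.addNat 2 ∧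
      ∀ j, j < k.addNat 2 → α j (k.addNat 2) ≤ α p (k.addNat 2) := by
    intro k
    obtain ⟨p, hp, h⟩ := (Finset.univ.filter fun j : Fin 5 => j < k.addNat 2).exists_max_image
      (fun j => α j (k.addNat 2)) ⟨0, by fin_cases k <;> decide⟩
    exact ⟨p, by simpa using hp, fun j hj => h j (by simpa using hj)⟩
  choose par hp hm using ex
  refine ⟨par, hp, fun q hq => ?_⟩
  have k2 : ∀ j : Fin 5, j < 2 → j ≠ par 0 → Mn (α j 2) (α (par 0) 2) (α (par 0) j) ∧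
      Mn (α j 2) (α (par 0) 2) (α j (par 0)) := fun j h h' =>
    key 2 _ j (hp 0).ne h.ne h' (hm 0 j h)
  have k3 : ∀ j : Fin 5, j < 3 → j ≠ par 1 → Mn (α j 3) (α (par 1) 3) (α (par 1) j) ∧
      Mn (α j 3) (α (par 1) 3) (α j (par 1)) := fun j h h' =>
    key 3 _ j (hp 1).ne h.ne h' (hm 1 j h)
  have k4 : ∀ j : Fin 5, j < 4 → j ≠ par 2 → Mn (α j 4) (α (par 2) 4) (α (par 2) j) ∧
      Mn (α j 4) (α (par 2) 4) (α j (par 2)) := fun j h h' =>
    key 4 _ j (hp 2).ne h.ne h' (hm 2 j h)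
  have p2 : par 0 = 0 ∨ par 0 = 1 := by
    have : par 0 < 2 := hp 0
    omega
  have p3 : par 1 = 0 ∨ par 1 = 1 ∨ par 1 = 2 := by
    have : par 1 < 3 := hp 1
    omega
  have p4 : par 2 = 0 ∨ par 2 = 1 ∨ par 2 = 2 ∨ par 2 = 3 := by
    have : par 2 < 4 := hp 2
    omega
  have H := comb0 (α 0 2) (α 1 2) (α 0 3) (α 1 3) (α 2 3) (α 0 4) (α 1 4) (α 2 4) (α 3 4)
    (α (par 0) 2) (α (par 1) 3) (α (par 2) 4) (α q.1 q.2.1 + α q.2.2.1 q.2.2.2) ?_ ?_ ?_ ?_
  · rw [Fin.sum_univ_three]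
    refine ⟨H.1, fun h a b hab => ?_⟩
    obtain ⟨h0, h1, h2, h3, h4, h5, h6, h7, h8⟩ := H.2 h
    fin_cases a <;> fin_cases b <;> first | assumption | exact absurd hab (by decide)
  · rw [← h01]
    rcases p2 with e | e <;> rw [e] at k2 ⊢
    · exact .inl ⟨rfl, (k2 1 (by decide) (by decide)).1⟩
    · exact .inr ⟨rfl, (k2 0 (by decide) (by decide)).2⟩
  · rw [← h01]
    rcases p3 with e | e | e <;> rw [e] at k3 ⊢
    · exact .inl ⟨rfl, (k3 1 (by decide) (by decide)).1, (k3 2 (by decide) (by decide)).1⟩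
    · exact .inr (.inl ⟨rfl, (k3 0 (by decide) (by decide)).2, (k3 2 (by decide) (by decide)).1⟩)
    · exact .inr (.inr ⟨rfl, (k3 0 (by decide) (by decide)).2, (k3 1 (by decide) (by decide)).2⟩)
  · rw [← h01]
    rcases p4 with e | e | e | e <;> rw [e] at k4 ⊢
    · exact .inl ⟨rfl, (k4 1 (by decide) (by decide)).1, (k4 2 (by decide) (by decide)).1,
        (k4 3 (by decide) (by decide)).1⟩
    · exact .inr (.inl ⟨rfl, (k4 0 (by decide) (by decide)).2, (k4 2 (by decide) (by decide)).1,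
        (k4 3 (by decide) (by decide)).1⟩)
    · exact .inr (.inr (.inl ⟨rfl, (k4 0 (by decide) (by decide)).2,
        (k4 1 (by decide) (by decide)).2, (k4 3 (by decide) (by decide)).1⟩))
    · exact .inr (.inr (.inr ⟨rfl, (k4 0 (by decide) (by decide)).2,
        (k4 1 (by decide) (by decide)).2, (k4 2 (by decide) (by decide)).2⟩))
  · simp only [quads, List.mem_cons, List.not_mem_nil, or_false] at hq
    rcases hq with rfl | rfl | rfl | rfl | rfl | rfl | rfl | rfl | rfl | rfl <;> simp [h01]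

end Pool.Agent.Lib.MP_62ba83_co.G
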