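import Mathlib

/-! The combinatorial inequality for ultrametric weights on five points. -/

set_option autoImplicit false

namespace Pool.Agent.Lib.MP_62ba83_co.G

/-- `a` is the minimum of `x` and `y` -/
def Mn (a x y : ℤ) : Prop := a ≤ x ∧ a ≤ y ∧ (a = x ∨ a = y)

theorem comb0 (a02 a12 a03 a13 a23 a04 a14 a24 a34 m2 m3 m4 s : ℤ)
    (h2 : (m2 = a02 ∧ Mn a12 m2 0) ∨ (m2 = a12 ∧ Mn a02 m2 0))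
    (h3 : (m3 = a03 ∧ Mn a13 m3 0 ∧ Mn a23 m3 a02) ∨
      (m3 = a13 ∧ Mn a03 m3 0 ∧ Mn a23 m3 a12) ∨
      (m3 = a23 ∧ Mn a03 m3 a02 ∧ Mn a13 m3 a12))
    (h4 : (m4 = a04 ∧ Mn a14 m4 0 ∧ Mn a24 m4 a02 ∧ Mn a34 m4 a03) ∨
      (m4 = a14 ∧ Mn a04 m4 0 ∧ Mn a24 m4 a12 ∧ Mn a34 m4 a13) ∨
      (m4 = a24 ∧ Mn a04 m4 a02 ∧ Mn a14 m4 a12 ∧ Mn a34 m4 a23) ∨
      (m4 = a34 ∧ Mn a04 m4 a03 ∧ Mn a14 m4 a13 ∧ Mn a24 m4 a23))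
    (hs : s = a23 ∨ s = a24 ∨ s = a34 ∨ s = a02 + a34 ∨ s = a12 + a34 ∨ s = a03 + a24 ∨
      s = a13 + a24 ∨ s = a04 + a23 ∨ s = a14 + a23 ∨ s = a02 + a13) :
    a02 + a12 + a03 + a13 + a23 + a04 + a14 + a24 + a34 ≤ 2 * (m2 + m3 + m4) + s ∧
      (a02 + a12 + a03 + a13 + a23 + a04 + a14 + a24 + a34 = 2 * (m2 + m3 + m4) + s →
        a02 = 0 ∧ a12 = 0 ∧ a03 = 0 ∧ a13 = 0 ∧ a23 = 0 ∧ a04 = 0 ∧ a14 = 0 ∧ a24 = 0 ∧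
          a34 = 0) := by
  have H : a02 + a12 + a03 + a13 + a23 + a04 + a14 + a24 + a34 + m2 ≤ 2 * (m2 + m3 + m4) + s ∧
      a02 + a12 + a03 + a13 + a23 + a04 + a14 + a24 + a34 - m2 ≤ 2 * (m2 + m3 + m4) + s ∧
      a02 + a12 + a03 + a13 + a23 + a04 + a14 + a24 + a34 + m3 ≤ 2 * (m2 + m3 + m4) + s ∧
      a02 + a12 + a03 + a13 + a23 + a04 + a14 + a24 + a34 - m3 ≤ 2 * (m2 + m3 + m4) + s ∧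
      a02 + a12 + a03 + a13 + a23 + a04 + a14 + a24 + a34 + m4 ≤ 2 * (m2 + m3 + m4) + s ∧
      a02 + a12 + a03 + a13 + a23 + a04 + a14 + a24 + a34 - m4 ≤ 2 * (m2 + m3 + m4) + s := by
    rcases h2 with ⟨e2, ⟨_, _, -⟩⟩ | ⟨e2, ⟨_, _, -⟩⟩ <;>
    rcases h3 with ⟨e3, ⟨_, _, -⟩, ⟨_, _, -⟩⟩ | ⟨e3, ⟨_, _, -⟩, ⟨_, _, -⟩⟩ |
      ⟨e3, ⟨_, _, -⟩, ⟨_, _, -⟩⟩ <;>
    rcases h4 with ⟨e4, ⟨_, _, -⟩, ⟨_, _, -⟩, ⟨_, _, -⟩⟩ | ⟨e4, ⟨_, _, -⟩, ⟨_, _, -⟩, ⟨_, _, -⟩⟩ |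
      ⟨e4, ⟨_, _, -⟩, ⟨_, _, -⟩, ⟨_, _, -⟩⟩ | ⟨e4, ⟨_, _, -⟩, ⟨_, _, -⟩, ⟨_, _, -⟩⟩ <;>
    rcases hs with hs | hs | hs | hs | hs | hs | hs | hs | hs | hs <;>
    exact ⟨by omega, by omega, by omega, by omega, by omega, by omega⟩
  refine ⟨by omega, fun h => ?_⟩
  obtain rfl : m2 = 0 := by omega
  obtain rfl : m3 = 0 := by omega
  obtain rfl : m4 = 0 := by omega
  clear H h hs
  unfold Mn at *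
  have : a02 = 0 ∧ a12 = 0 := by omega
  have : a03 = 0 ∧ a13 = 0 ∧ a23 = 0 := by omega
  omega

end Pool.Agent.Lib.MP_62ba83_co.G
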