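import Pool.Agent.Lib.MP_62ba83_co.G.Log

/-! The forms attached to two disjoint pairs of points have no pole. -/

set_option autoImplicit false
set_option linter.unusedSectionVars false

namespace Pool.Agent.Lib.MP_62ba83_co.G

open Matrix

variable {K M Γ : Type} [Field K] [CharZero K] [Field M] [Algebra K M]
  [LinearOrderedCommGroupWithZero Γ] {w : Valuation M Γ}

/-- five points `(x, y / √(-l))` in normal position with their distances -/
structure Sys (l : K) (x y : Fin 5 → K) (d : Fin 5 → Fin 5 → K) : Prop where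
  hd : ∀ a b, d a b ^ 2 = (x a - x b) ^ 2 - l * (y a - y b) ^ 2
  x0 : x 0 = 0
  y0 : y 0 = 0
  x1 : x 1 = 1
  y1 : y 1 = 0
  d01 : d 0 1 = 1
  ne : ∀ a b, a < b → d a b ≠ 0
  l0 : l ≠ 0

/-- a discrete valuation with a square root of `l` above it -/
structure Plc (w : Valuation M Γ) (π l : K) (s : M) : Prop where
  h0 : π ≠ 0
  h1 : vF w π < 1
  hF : ∀ a : K, a ≠ 0 → ∃ n : ℤ, vF w a = vF w π ^ n
  h2 : w 2 = 1
  hs : s * s = algebraMap K M l

variable {π l : K} {x y : Fin 5 → K} {d : Fin 5 → Fin 5 → K} {s : M}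

theorem Sys.ne' (S : Sys l x y d) {a b : Fin 5} (h : a ≠ b) : d a b ≠ 0 := by
  rcases lt_or_gt_of_ne h with h | h
  · exact S.ne a b h
  · intro e
    have h1 := S.hd a b
    have h2 := S.hd b a
    refine S.ne b a h (pow_eq_zero_iff two_ne_zero |>.1 ?_)
    rw [e] at h1
    linear_combination h2 - h1

theorem Plc.p0 (P : Plc w π l s) : vF w π ≠ 0 := by simp [vF, P.h0]

theorem Plc.neg (P : Plc w π l s) : Plc w π l (-s) :=
  ⟨P.h0, P.h1, P.hF, P.h2, by rw [neg_mul_neg, P.hs]⟩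

theorem Sys.exp (S : Sys l x y d) (P : Plc w π l s) : ∃ γ : Fin 5 → Fin 5 → ℤ,
    (∀ a b, a ≠ b → vF w (d a b) = vF w π ^ γ a b) ∧ γ 0 1 = 0 := by
  have : ∀ a b, ∃ n : ℤ, a ≠ b → vF w (d a b) = vF w π ^ n := fun a b => by
    by_cases h : a = b
    · exact ⟨0, fun h' => absurd h h'⟩
    · exact (P.hF _ (S.ne' h)).imp fun _ e _ => e
  choose γ h using this
  refine ⟨γ, h, pw_inj P.p0 P.h1 ?_⟩
  rw [← h 0 1 (by decide), S.d01]
  simp [vF]

theorem Sys.norm (S : Sys l x y d) (P : Plc w π l s) (a b : Fin 5) :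
    w (el s (x a - x b) (y a - y b)) * w (el (-s) (x a - x b) (y a - y b)) = vF w (d a b) ^ 2 := by
  rw [← map_mul, el_mul P.hs, vF, ← map_pow, ← map_pow, S.hd]
  congr 2
  ring

theorem co_zero (S : Sys l x y d) (δ : Derivation ℚ K K) (t : Fin 2) :
    co δ l (x 0) (y 0) t = 0 ∧ co δ l (x 1) (y 1) t = 0 := by
  fin_cases t <;> simp [co, S.x0, S.x1, S.y0, S.y1]

/-- the value of an element of an unramified quadratic extension -/
theorem el_exp (P : Plc w π l s) {k : ℤ} (hk : w s = vF w π ^ k) {a b : K}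
    (h : a * a - l * (b * b) ≠ 0) : ∃ n : ℤ, w (el s a b) = vF w π ^ n := by
  have h1 := el_le w s a b
  have h2 := el_le w (-s) a b
  have h3 := le_el w P.h2 s a b
  rw [w.map_neg] at h2
  obtain ⟨N, hN⟩ := P.hF _ h
  have h4 : w (el s a b) * w (el (-s) a b) = vF w π ^ N := by rw [← map_mul, el_mul P.hs, ← hN]
  obtain ⟨m, hm⟩ : ∃ m : ℤ, max (vF w a) (vF w b * w s) = vF w π ^ m := by
    rcases max_cases (vF w a) (vF w b * w s) with ⟨e, e'⟩ | ⟨e, e'⟩ <;> rw [e]
    · refine P.hF a fun ha => ?_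
      rw [e, ha] at h1
      have : w (el s a b) = 0 := by simpa [vF, ha] using h1
      rw [this, zero_mul] at h4
      exact zpow_ne_zero _ P.p0 h4.symm
    · obtain ⟨n, hn⟩ := P.hF b fun hb => by simp [hb, vF] at e'
      exact ⟨n + k, by rw [hn, hk, zpow_add₀ P.p0]⟩
  rw [hm] at h1 h2 h3
  rcases le_max_iff.1 h3 with h5 | h5
  · exact ⟨m, le_antisymm h1 h5⟩
  · rw [le_antisymm h2 h5] at h4
    exact ⟨N - m, by rw [zpow_sub₀ P.p0, ← h4, mul_div_cancel_right₀ _ (zpow_ne_zero _ P.p0)]⟩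

theorem Sys.expz (S : Sys l x y d) (P : Plc w π l s) {k : ℤ} (hk : w s = vF w π ^ k) :
    ∃ α : Fin 5 → Fin 5 → ℤ, (∀ a b, a ≠ b →
      w (el s (x a) (y a) - el s (x b) (y b)) = vF w π ^ α a b) ∧ α 0 1 = 0 := by
  have : ∀ a b, ∃ n : ℤ, a ≠ b → w (el s (x a) (y a) - el s (x b) (y b)) = vF w π ^ n :=
    fun a b => by
      by_cases h : a = b
      · exact ⟨0, fun h' => absurd h h'⟩
      · rw [el_sub]
        refine (el_exp P hk fun e => S.ne' h (pow_eq_zero_iff two_ne_zero |>.1 ?_)).imp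
          fun _ e _ => e
        linear_combination S.hd a b + e
  choose α h using this
  refine ⟨α, h, pw_inj P.p0 P.h1 ?_⟩
  rw [← h 0 1 (by decide)]
  simp [el, S.x0, S.x1, S.y0, S.y1]

/-- the bound by the two trees -/
theorem det_trees (S : Sys l x y d) (P : Plc w π l s) (δ : Ix → Derivation ℚ K K)
    (hδ : ∀ i, Lg w (δ i)) (par : Fin 2 → Fin 3 → Fin 5) (hp : ∀ t k, par t k < k.addNat 2) :
    vF w (jac δ l x y).det * w s ^ 3 ≤ ∏ j : Ix, w (el (![s, -s] j.1) (x (par j.1 j.2))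
      (y (par j.1 j.2)) - el (![s, -s] j.1) (x (j.2.addNat 2)) (y (j.2.addNat 2))) := by
  have e1 := det_conj ((algebraMap K M).mapMatrix (jac δ l x y)) s
  have e2 := det_tree (fun t a i => dl (![s, -s] t) l (δ i) (x a) (y a))
    (fun t i => by simp [dl_co, (co_zero S _ _).1]) (fun t i => by simp [dl_co, (co_zero S _ _).2])
    par hp
  have e3 : vF w (jac δ l x y).det * w s ^ 3 =
      w (((algebraMap K M).mapMatrix (jac δ l x y)).det * (-2 * s) ^ 3) := by
    rw [← RingHom.map_det, map_mul, map_pow, map_mul, w.map_neg, P.h2, one_mul]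
  rw [e3, ← e1]
  refine (congrArg w e2).ge.trans (det_le w _ _ fun i j => ?_)
  have hs : ![s, -s] j.1 * ![s, -s] j.1 = algebraMap K M l := by
    obtain ⟨t, k⟩ := j
    fin_cases t
    exacts [P.hs, P.neg.hs]
  refine le_of_eq_of_le (congrArg w ?_) ((dl_log w P.h2 hs S.l0 (hδ i) _ _).trans_eq
    (congrArg w (el_sub _ _ _ _ _).symm))
  simp only [of_apply, dl_co, co_sub, map_sub]
  ring

/-- good reduction -/
theorem det_good (S : Sys l x y d) (P : Plc w π l s) {k : ℤ} (hk : w s = vF w π ^ k)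
    (δ : Ix → Derivation ℚ K K) (hδ : ∀ i, Pr w (δ i))
    (h : ∀ a, w (el s (x a) (y a)) ≤ 1 ∧ w (el (-s) (x a) (y a)) ≤ 1) :
    vF w (jac δ l x y).det * w s ^ 3 ≤ 1 := by
  have hc : π ^ k ≠ 0 := zpow_ne_zero _ P.h0
  have hv : vF w (π ^ k) = w s := by rw [hk, vF, map_zpow₀, map_zpow₀]
  have hs0 : w s ≠ 0 := hk ▸ zpow_ne_zero _ P.p0
  have hl : vF w (l / (π ^ k * π ^ k)) = 1 := by
    rw [vF, map_div₀, map_div₀, ← P.hs, map_mul, map_mul, map_mul, ← vF, hv,
      div_self (mul_ne_zero hs0 hs0)]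
  have B := det_le (w.comap (algebraMap K M)) (jac δ l x y) (fun j => ![1, (w s)⁻¹] j.1) ?_
  · rw [Fintype.prod_prod_type] at B
    simp only [Fin.prod_univ_two, cons_val_zero, cons_val_one, Finset.prod_const, one_pow, one_mul,
      Finset.card_univ, Fintype.card_fin, cons_val_fin_one] at B
    refine (mul_le_mul_left B _).trans_eq ?_
    rw [← mul_pow, inv_mul_cancel₀ hs0, one_pow]
  · rintro i ⟨t, a⟩
    obtain ⟨h1, h2⟩ := max_le_iff.1 ((le_el w P.h2 s _ _).trans (max_le (h (a.addNat 2)).1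
      (h (a.addNat 2)).2))
    fin_cases t
    · exact hδ i _ h1
    · change vF w (δ i (y (a.addNat 2)) + y (a.addNat 2) * (δ i l / (2 * l))) ≤ (w s)⁻¹
      generalize y (a.addNat 2) = b at h2
      generalize π ^ k = c at hc hv hl
      have hb : vF w (b * c) ≤ 1 := by rwa [vF, map_mul, map_mul, ← vF, ← vF, hv]
      have e : (δ i b + b * (δ i l / (2 * l))) * c =
          δ i (b * c) + b * c * (δ i (l / (c * c)) / (2 * (l / (c * c)))) := by
        have := S.l0
        simp only [Derivation.leibniz_div, Derivation.leibniz, smul_eq_mul]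
        field_simp
        ring
      have h3 := lam_le w P.h2 ((hδ i _ hl.le).trans hl.ge)
      have h4 : vF w ((δ i b + b * (δ i l / (2 * l))) * c) ≤ 1 := by
        have h5 := hδ i _ hb
        rw [e]
        unfold vF at *
        rw [map_add]
        refine w.map_add_le h5 ?_
        rw [map_mul, map_mul]
        exact mul_le_one' hb h3
      rw [vF, map_mul, map_mul, ← vF, ← vF, hv] at h4
      rwa [← one_div, le_div_iff₀ (zero_lt_iff.2 hs0)]

/-- the unramified case -/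
theorem reg_even (S : Sys l x y d) (P : Plc w π l s) {k : ℤ} (hk : w s = vF w π ^ k)
    (δ : Ix → Derivation ℚ K K) (hδ : ∀ i, Pr w (δ i)) {q : Fin 5 × Fin 5 × Fin 5 × Fin 5}
    (hq : q ∈ quads) : vF w (qq d q) * (vF w (jac δ l x y).det * w s ^ 3) ≤ vF w (prod9 d) := by
  obtain ⟨γ, hγ, γ0⟩ := S.exp P
  obtain ⟨α, hα, α0⟩ := S.expz P hk
  obtain ⟨β, hβ, β0⟩ := S.expz P.neg ((w.map_neg s).trans hk)
  have par2 : ∀ a b, a ≠ b → α a b + β a b = 2 * γ a b := fun a b h => pw_inj P.p0 P.h1 (by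
    rw [zpow_add₀ P.p0, ← hα a b h, ← hβ a b h, el_sub, el_sub, S.norm P, hγ a b h,
      ← zpow_natCast, ← _root_.zpow_mul, mul_comm]
    rfl)
  obtain ⟨pa, hpa, Ha⟩ := tree P.p0 P.h1 _ α hα α0
  obtain ⟨pb, hpb, Hb⟩ := tree P.p0 P.h1 _ β hβ β0
  obtain ⟨a1, a2⟩ := Ha q hq
  obtain ⟨b1, b2⟩ := Hb q hq
  have s9 : sum9 α + sum9 β = 2 * sum9 γ := by
    have := par2 0 2 (by decide)
    have := par2 1 2 (by decide)
    have := par2 0 3 (by decide)
    have := par2 1 3 (by decide)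
    have := par2 2 3 (by decide)
    have := par2 0 4 (by decide)
    have := par2 1 4 (by decide)
    have := par2 2 4 (by decide)
    have := par2 3 4 (by decide)
    unfold sum9
    omega
  have q1 := par2 _ _ (quads_lt hq).1.ne
  have q2 := par2 _ _ (quads_lt hq).2.ne
  rw [vF_prod9 P.p0 hγ, vF_qq P.p0 hγ hq]
  by_cases hc : sum9 γ + 1 ≤ γ q.1 q.2.1 + γ q.2.2.1 q.2.2.2 +
      (∑ k, α (pa k) (k.addNat 2) + ∑ k, β (pb k) (k.addNat 2))
  · obtain ⟨δ', h1, h2⟩ := exists_lg P.h0 P.h1 P.hF δ hδ l x y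
    have B := det_trees S P δ' h1 ![pa, pb] (fun t => by fin_cases t; exacts [hpa, hpb])
    rw [Fintype.prod_prod_type, Fin.prod_univ_two, h2, vF, map_mul, map_mul, ← vF, ← vF] at B
    simp only [cons_val_zero, cons_val_one, cons_val_fin_one] at B
    rw [Finset.prod_congr rfl fun k _ => hα _ _ (hpa k).ne,
      Finset.prod_congr rfl fun k _ => hβ _ _ (hpb k).ne] at B
    refine le_of_mul_le_mul_left ?_ (zero_lt_iff.2 P.p0)
    rw [mul_left_comm, ← mul_assoc (vF w π)]
    refine (mul_le_mul_right B _).trans ?_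
    simp only [Fin.prod_univ_three, Fin.sum_univ_three] at hc ⊢
    rw [← zpow_one_add₀ P.p0]
    simp only [← zpow_add₀ P.p0]
    rw [pw_le P.p0 P.h1]
    omega
  · have a3 := a2 (by omega)
    have b3 := b2 (by omega)
    have g3 : ∀ a b, a < b → γ a b = 0 := fun a b h => by
      have := par2 a b h.ne
      rw [a3 a b h, b3 a b h] at this
      omega
    have B := det_good S P hk δ hδ fun a => ?_
    · have : sum9 γ = 0 := by
        unfold sum9
        rw [g3, g3, g3, g3, g3, g3, g3, g3, g3] <;> decide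
      rwa [this, g3 _ _ (quads_lt hq).1, g3 _ _ (quads_lt hq).2, add_zero, zpow_zero, one_mul]
    · by_cases h : a = 0
      · simp [h, el, S.x0, S.y0]
      · have h1 := hα 0 a (Ne.symm h)
        have h2 := hβ 0 a (Ne.symm h)
        rw [a3 0 a (Fin.pos_iff_ne_zero.2 h)] at h1
        rw [b3 0 a (Fin.pos_iff_ne_zero.2 h)] at h2
        simp only [el, S.x0, S.y0, map_zero, zero_mul, add_zero, zero_sub, Valuation.map_neg,
          zpow_zero] at h1 h2
        exact ⟨h1.le, h2.le⟩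

end Pool.Agent.Lib.MP_62ba83_co.G
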