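import Mathlib

/-! Determinant lemmas: bounds, trees, blocks, logarithmic derivations. -/

set_option autoImplicit false

namespace Pool.Agent.Lib.MP_62ba83_co.G

open Matrix

/-- the index set: two coordinates of three points -/
abbrev Ix : Type := Fin 2 × Fin 3

theorem det_le {M Γ ι : Type} [Field M] [LinearOrderedCommGroupWithZero Γ] [Fintype ι]
    [DecidableEq ι] (w : Valuation M Γ) (N : Matrix ι ι M) (c : ι → Γ)
    (h : ∀ i j, w (N i j) ≤ c j) : w N.det ≤ ∏ j, c j := by
  rw [det_apply]
  refine w.map_sum_le fun σ _ => ?_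
  have : w (Equiv.Perm.sign σ • ∏ j, N (σ j) j) = w (∏ j, N (σ j) j) := by
    rcases Int.units_eq_one_or (Equiv.Perm.sign σ) with e | e <;> simp [e]
  rw [this, map_prod]
  exact Finset.prod_le_prod' fun j _ => h _ j

variable {R : Type} [CommRing R]

/-- passing to the edges of a tree does not change the determinant -/
theorem det_tree (A : Fin 2 → Fin 5 → Ix → R) (h0 : ∀ s i, A s 0 i = 0) (h1 : ∀ s i, A s 1 i = 0)
    (par : Fin 2 → Fin 3 → Fin 5) (hp : ∀ s k, par s k < k.addNat 2) :
    (of fun (i j : Ix) => A j.1 (par j.1 j.2) i - A j.1 (j.2.addNat 2) i).det =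
      (of fun (i j : Ix) => A j.1 (j.2.addNat 2) i).det := by
  let U : Matrix Ix Ix R := of fun j' j =>
    (if j'.1 = j.1 ∧ j'.2.addNat 2 = par j.1 j.2 then 1 else 0) - (if j' = j then 1 else 0)
  have e : (of fun (i j : Ix) => A j.1 (par j.1 j.2) i - A j.1 (j.2.addNat 2) i) =
      (of fun (i j : Ix) => A j.1 (j.2.addNat 2) i) * U := by
    ext i ⟨s, k⟩
    simp only [U, mul_apply, of_apply, mul_sub, Finset.sum_sub_distrib, mul_ite, mul_one, mul_zero,
      Finset.sum_ite_eq', Finset.mem_univ, if_true]
    congr 1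
    rw [Fintype.sum_prod_type]
    generalize par s k = p
    fin_cases s <;> fin_cases p <;> simp [Fin.sum_univ_three, h0, h1]
  have hU : U.det = 1 := by
    rw [← det_submatrix_equiv_self (finProdFinEquiv (m := 2) (n := 3)).symm, det_of_isUpperTriangular]
    · rw [Finset.prod_eq_pow_card (b := -1)]
      · simp only [Finset.card_univ, Fintype.card_fin]
        norm_num
      · intro j _
        simp [U, (hp _ _).ne']
    · intro j' j h
      obtain ⟨⟨s', k'⟩, rfl⟩ := (finProdFinEquiv (m := 2) (n := 3)).surjective j'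
      obtain ⟨⟨s, k⟩, rfl⟩ := (finProdFinEquiv (m := 2) (n := 3)).surjective j
      have h' : (k : ℕ) + 3 * s < k' + 3 * s' := h
      have h2 : ((par s k : Fin 5) : ℕ) < k + 2 := hp s k
      simp only [U, submatrix_apply, Equiv.symm_apply_apply, of_apply]
      rw [if_neg, if_neg, sub_zero]
      · rintro ⟨⟩
        omega
      · rintro ⟨rfl, e⟩
        have : (k' : ℕ) + 2 = par s' k := congrArg Fin.val e
        omega
  rw [e, det_mul, hU, mul_one]

/-- passing to conjugate coordinates -/
theorem det_conj (N : Matrix Ix Ix R) (s : R) :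
    (of fun (i j : Ix) => N i (0, j.2) + N i (1, j.2) * (![s, -s] j.1)).det =
      N.det * (-2 * s) ^ 3 := by
  have e : (of fun (i j : Ix) => N i (0, j.2) + N i (1, j.2) * (![s, -s] j.1)) =
      N * blockDiagonal fun _ : Fin 3 => !![1, 1; s, -s] := by
    ext i ⟨t, k⟩
    rw [mul_apply, Fintype.sum_prod_type]
    fin_cases t <;> simp [blockDiagonal_apply]
  rw [e, det_mul, det_blockDiagonal]
  simp only [det_fin_two_of, Finset.prod_const, Finset.card_univ, Fintype.card_fin]
  ring

end Pool.Agent.Lib.MP_62ba83_co.G
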