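import Mathlib

/-! Logarithmic derivations and their extension to a quadratic extension (text of helper52). -/

set_option autoImplicit false

namespace Pool.Agent.Lib.MP_62ba83_co.G

variable {k F M Γ : Type*} [Field k] [Field F] [Field M] [Algebra k F] [Algebra F M]
  [LinearOrderedCommGroupWithZero Γ] (v : Valuation M Γ)

/-- the value of an element of F -/
abbrev vF (x : F) : Γ := v (algebraMap F M x)

/-- logarithmic derivation -/
def Lg (δ : Derivation k F F) : Prop := ∀ x, vF v (δ x) ≤ vF v x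

/-- derivation preserving the valuation ring -/
def Pr (δ : Derivation k F F) : Prop := ∀ x, vF v x ≤ 1 → vF v (δ x) ≤ 1

theorem vF_int (n : ℤ) : vF v ((n : ℤ) : F) ≤ 1 := by
  unfold vF; rw [map_intCast]
  exact (v.mem_integer_iff _).1 (intCast_mem _ n)

theorem lg_of {π : F} (h0 : π ≠ 0) (hF : ∀ x : F, x ≠ 0 → ∃ n : ℤ, vF v x = vF v π ^ n)
    {δ : Derivation k F F} (hp : Pr v δ) (hπ : vF v (δ π) ≤ vF v π) : Lg v δ := by
  intro x
  by_cases hx : x = 0
  · simp [hx]
  obtain ⟨n, hn⟩ := hF x hx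
  have hv : vF v π ≠ 0 := by simp [vF, h0]
  have hu : vF v (x / π ^ n) = 1 := by
    unfold vF at *
    rw [map_div₀, map_zpow₀, map_div₀, map_zpow₀, hn, div_self (zpow_ne_zero _ hv)]
  have e : x = x / π ^ n * π ^ n := by field_simp
  have e2 : δ x = π ^ n * (δ (x / π ^ n) + (x / π ^ n) * (n : F) * (δ π / π)) := by
    conv_lhs => rw [e]
    rw [Derivation.leibniz, Derivation.leibniz_zpow]
    simp only [smul_eq_mul, zsmul_eq_mul]
    rw [zpow_sub_one₀ h0]
    field_simp
    ring
  have h1 : vF v (δ π / π) ≤ 1 := by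
    unfold vF at *
    rw [map_div₀, map_div₀]
    exact div_le_one_of_le₀ hπ zero_le
  have h2 : vF v (δ (x / π ^ n) + (x / π ^ n) * (n : F) * (δ π / π)) ≤ 1 := by
    have a1 := hp _ hu.le
    have a2 := vF_int (F := F) v n
    unfold vF at *
    rw [map_add]
    refine v.map_add_le a1 ?_
    rw [map_mul, map_mul, map_mul, map_mul, hu, one_mul]
    exact mul_le_one' a2 h1
  rw [e2, hn]
  unfold vF at *
  rw [map_mul, map_mul, map_zpow₀, map_zpow₀]
  exact mul_le_of_le_one_right' h2

/-- the element a + b s -/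
def el (s : M) (a b : F) : M := algebraMap F M a + algebraMap F M b * s

/-- its derivative, where s * s = Δ -/
def dl (s : M) (Δ : F) (δ : Derivation k F F) (a b : F) : M :=
  el s (δ a) (δ b + b * (δ Δ / (2 * Δ)))

theorem el_le (s : M) (a b : F) : v (el s a b) ≤ max (vF v a) (vF v b * v s) := by
  unfold el
  refine (v.map_add _ _).trans ?_
  rw [map_mul]

theorem el_neg (s : M) (a b : F) : el (-s) a b = el s a (-b) := by simp [el]

theorem le_el (h2 : v 2 = 1) (s : M) (a b : F) :
    max (vF v a) (vF v b * v s) ≤ max (v (el s a b)) (v (el (-s) a b)) := by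
  refine max_le ?_ ?_
  · have : v (el s a b + el (-s) a b) = vF v a := by
      have : el s a b + el (-s) a b = 2 * algebraMap F M a := by unfold el; ring
      rw [this, map_mul, h2, one_mul]
    rw [← this]; exact v.map_add _ _
  · have : v (el s a b - el (-s) a b) = vF v b * v s := by
      have : el s a b - el (-s) a b = 2 * (algebraMap F M b * s) := by unfold el; ring
      rw [this, map_mul, h2, one_mul, map_mul]
    rw [← this]; exact v.map_sub _ _

theorem lam_le (h2 : v 2 = 1) {Δ : F} {δ : Derivation k F F} (h : vF v (δ Δ) ≤ vF v Δ) :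
    vF v (δ Δ / (2 * Δ)) ≤ 1 := by
  unfold vF at *
  rw [map_div₀, map_mul, map_div₀, map_mul, map_ofNat, h2, one_mul]
  exact div_le_one_of_le₀ h zero_le

theorem dotb_le (h2 : v 2 = 1) {Δ : F} {δ : Derivation k F F} (hl : Lg v δ) (b : F) :
    vF v (δ b + b * (δ Δ / (2 * Δ))) ≤ vF v b := by
  have h := lam_le v h2 (hl Δ)
  have h' := hl b
  unfold vF at *
  rw [map_add]
  refine v.map_add_le h' ?_
  rw [map_mul, map_mul]
  exact mul_le_of_le_one_right' h

theorem dl_le (h2 : v 2 = 1) (s : M) (Δ : F) {δ : Derivation k F F} (hl : Lg v δ) (a b : F) :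
    v (dl s Δ δ a b) ≤ max (vF v a) (vF v b * v s) :=
  (el_le v _ _ _).trans (max_le_max (hl a) (mul_le_mul_left (dotb_le v h2 hl b) _))

theorem el_mul {s : M} {Δ : F} (hs : s * s = algebraMap F M Δ) (a b : F) :
    el s a b * el (-s) a b = algebraMap F M (a * a - Δ * (b * b)) := by
  unfold el
  simp only [map_sub, map_mul, ← hs]
  ring

theorem dl_mul [CharZero F] {s : M} {Δ : F} (hs : s * s = algebraMap F M Δ) (hΔ : Δ ≠ 0)
    (δ : Derivation k F F) (a b : F) :
    dl s Δ δ a b * el (-s) a b + el s a b * dl (-s) Δ δ a b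
      = algebraMap F M (δ (a * a - Δ * (b * b))) := by
  have e : δ (a * a - Δ * (b * b))
      = 2 * (a * δ a) - 2 * (Δ * (b * (δ b + b * (δ Δ / (2 * Δ))))) := by
    simp only [map_sub, Derivation.leibniz, smul_eq_mul]
    field_simp
    ring
  rw [e]
  unfold dl el
  generalize δ b + b * (δ Δ / (2 * Δ)) = c
  simp only [map_sub, map_mul, map_ofNat, ← hs]
  ring

/-- the extended derivation is again logarithmic -/
theorem dl_log [CharZero F] (h2 : v 2 = 1) {s : M} {Δ : F} (hs : s * s = algebraMap F M Δ)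
    (hΔ : Δ ≠ 0) {δ : Derivation k F F} (hl : Lg v δ) (a b : F) :
    v (dl s Δ δ a b) ≤ v (el s a b) := by
  have h1 := dl_le v h2 s Δ hl a b
  have h3 := le_el v h2 s a b
  by_cases hc : v (el (-s) a b) ≤ v (el s a b)
  · exact h1.trans (h3.trans (max_le le_rfl hc))
  push Not at hc
  have h4 : v (dl (-s) Δ δ a b) ≤ v (el (-s) a b) := by
    have := dl_le v h2 (-s) Δ hl a b
    rw [v.map_neg] at this
    exact this.trans (h3.trans (max_le hc.le le_rfl))
  have h5 : v (dl s Δ δ a b) * v (el (-s) a b) ≤ v (el s a b) * v (el (-s) a b) := by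
    rw [← map_mul, eq_sub_of_add_eq (dl_mul hs hΔ δ a b)]
    refine v.map_sub_le ?_ ?_
    · rw [← map_mul, el_mul hs]; exact hl _
    · rw [map_mul]; exact mul_le_mul_right h4 _
  exact le_of_mul_le_mul_right h5 (lt_of_le_of_lt zero_le hc)

end Pool.Agent.Lib.MP_62ba83_co.G
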