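import Pool.Agent.Lib.MP_62ba83_co.G.Det
import Pool.Agent.Lib.MP_62ba83_co.G.Val
import Pool.Agent.Lib.MP_62ba83_co.G.Comb

/-! Reduction to logarithmic derivations; exponents of differences of points. -/

set_option autoImplicit false
set_option linter.unusedSectionVars false

namespace Pool.Agent.Lib.MP_62ba83_co.G

open Matrix

variable {K M Γ : Type} [Field K] [CharZero K] [Field M] [Algebra K M]
  [LinearOrderedCommGroupWithZero Γ] {w : Valuation M Γ}

/-- the derivative of `a + b s` in coordinates, where `s * s = l` -/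
def co (δ : Derivation ℚ K K) (l a b : K) : Fin 2 → K := ![δ a, δ b + b * (δ l / (2 * l))]

/-- the Jacobian matrix of the coordinates of the last three points -/
def jac (δ : Ix → Derivation ℚ K K) (l : K) (x y : Fin 5 → K) : Matrix Ix Ix K :=
  of fun i j => co (δ i) l (x (j.2.addNat 2)) (y (j.2.addNat 2)) j.1

theorem co_sub (δ : Derivation ℚ K K) (l a b a' b' : K) (t : Fin 2) :
    co δ l (a - a') (b - b') t = co δ l a b t - co δ l a' b' t := by
  fin_cases t <;> simp [co]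
  ring

theorem co_lin (δ δ' : Derivation ℚ K K) (c l a b : K) (t : Fin 2) :
    co (δ + c • δ') l a b t = co δ l a b t + c * co δ' l a b t := by
  fin_cases t <;> simp [co]
  ring

theorem co_smul (δ : Derivation ℚ K K) (c l a b : K) (t : Fin 2) :
    co (c • δ) l a b t = c * co δ l a b t := by
  fin_cases t <;> simp [co]
  ring

theorem exists_lg {π : K} (h0 : π ≠ 0) (h1 : vF w π < 1)
    (hF : ∀ a : K, a ≠ 0 → ∃ n : ℤ, vF w a = vF w π ^ n) (δ : Ix → Derivation ℚ K K)
    (hδ : ∀ i, Pr w (δ i)) (l : K) (x y : Fin 5 → K) :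
    ∃ δ' : Ix → Derivation ℚ K K, (∀ i, Lg w (δ' i)) ∧
      (jac δ' l x y).det = π * (jac δ l x y).det := by
  obtain ⟨i₀, -, hi⟩ := Finset.univ.exists_max_image (fun i => vF w (δ i π)) Finset.univ_nonempty
  let c : Ix → K := fun i => if i = i₀ then 0 else -(δ i π / δ i₀ π)
  let δ₁ : Ix → Derivation ℚ K K := fun i => δ i + c i • δ i₀
  have e1 : (jac δ₁ l x y).det = (jac δ l x y).det :=
    det_eq_of_forall_row_eq_smul_add_const c i₀ (if_pos rfl) fun i j => co_lin _ _ _ _ _ _ _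
  refine ⟨Function.update δ₁ i₀ (π • δ₁ i₀), fun i => lg_of w h0 hF ?_ ?_, ?_⟩
  · by_cases h : i = i₀
    · subst h
      intro a ha
      have : Function.update δ₁ i (π • δ₁ i) i a = π * δ i a := by simp [δ₁, c]
      rw [this]
      unfold vF at *
      rw [map_mul, map_mul]
      exact mul_le_one' h1.le (hδ i a ha)
    · intro a ha
      have : Function.update δ₁ i₀ (π • δ₁ i₀) i a = δ i a - δ i π / δ i₀ π * δ i₀ a := by
        simp [δ₁, c, h, sub_eq_add_neg]
      rw [this]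
      have h2 := hi i (Finset.mem_univ _)
      have h3 := hδ i a ha
      have h4 := hδ i₀ a ha
      unfold vF at *
      rw [map_sub]
      refine w.map_sub_le h3 ?_
      rw [map_mul, map_mul, map_div₀, map_div₀]
      exact mul_le_one' (div_le_one_of_le₀ h2 zero_le) h4
  · by_cases h : i = i₀
    · subst h
      have : Function.update δ₁ i (π • δ₁ i) i π = π * δ i π := by simp [δ₁, c]
      rw [this]
      have := hδ i π h1.le
      unfold vF at *
      rw [map_mul, map_mul]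
      exact mul_le_of_le_one_right' this
    · have : Function.update δ₁ i₀ (π • δ₁ i₀) i π = δ i π - δ i π / δ i₀ π * δ i₀ π := by
        simp [δ₁, c, h, sub_eq_add_neg]
      rw [this]
      by_cases hz : δ i₀ π = 0
      · have h2 := hi i (Finset.mem_univ _)
        simp only [hz, vF, map_zero, le_zero_iff] at h2
        simp [hz, vF, h2]
      · simp [div_mul_cancel₀ _ hz, vF]
  · rw [← e1, ← updateRow_eq_self (jac δ₁ l x y) i₀, ← det_updateRow_smul]
    congr 1
    ext i j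
    by_cases h : i = i₀
    · subst h
      simp [jac, co_smul]
    · simp [jac, h]

theorem pw_le {p : Γ} (h0 : p ≠ 0) (h1 : p < 1) {m n : ℤ} : p ^ m ≤ p ^ n ↔ n ≤ m :=
  zpow_le_zpow_iff_right_of_lt_one₀ (zero_lt_iff.2 h0) h1

theorem pw_inj {p : Γ} (h0 : p ≠ 0) (h1 : p < 1) {m n : ℤ} (h : p ^ m = p ^ n) : m = n :=
  le_antisymm ((pw_le h0 h1).1 h.ge) ((pw_le h0 h1).1 h.le)

/-- the greedy tree for the differences of five elements -/
theorem tree {p : Γ} (h0 : p ≠ 0) (h1 : p < 1) (z : Fin 5 → M) (α : Fin 5 → Fin 5 → ℤ)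
    (h : ∀ a b, a ≠ b → w (z a - z b) = p ^ α a b) (h01 : α 0 1 = 0) :
    ∃ par : Fin 3 → Fin 5, (∀ k, par k < k.addNat 2) ∧ ∀ q ∈ quads,
      sum9 α ≤ 2 * ∑ k, α (par k) (k.addNat 2) + (α q.1 q.2.1 + α q.2.2.1 q.2.2.2) ∧
        (sum9 α = 2 * ∑ k, α (par k) (k.addNat 2) + (α q.1 q.2.1 + α q.2.2.1 q.2.2.2) →
          ∀ a b, a < b → α a b = 0) := by
  refine comb α (fun a b hab => pw_inj h0 h1 ?_) (fun a b c hab hac hbc => ?_) h01
  · rw [← h a b hab, ← h b a hab.symm, w.map_sub_swap]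
  · have := w.map_add (z a - z c) (z c - z b)
    rw [sub_add_sub_cancel, h a b hab, h a c hac, h c b hbc.symm, le_max_iff, pw_le h0 h1,
      pw_le h0 h1] at this
    exact min_le_iff.2 this

theorem el_sub (s : M) (a b a' b' : K) : el s a b - el s a' b' = el s (a - a') (b - b') := by
  simp only [el, map_sub]
  ring

theorem dl_co (s : M) (l : K) (δ : Derivation ℚ K K) (a b : K) :
    dl s l δ a b = algebraMap K M (co δ l a b 0) + algebraMap K M (co δ l a b 1) * s := rfl

theorem quads_lt {q : Fin 5 × Fin 5 × Fin 5 × Fin 5} (h : q ∈ quads) :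
    q.1 < q.2.1 ∧ q.2.2.1 < q.2.2.2 := by
  simp only [quads, List.mem_cons, List.not_mem_nil, or_false] at h
  rcases h with rfl | rfl | rfl | rfl | rfl | rfl | rfl | rfl | rfl | rfl <;> decide

/-- the product of the nine distances other than the first -/
def prod9 (d : Fin 5 → Fin 5 → K) : K :=
  d 0 2 * d 1 2 * d 0 3 * d 1 3 * d 2 3 * d 0 4 * d 1 4 * d 2 4 * d 3 4

/-- the product of two distances -/
def qq (d : Fin 5 → Fin 5 → K) (q : Fin 5 × Fin 5 × Fin 5 × Fin 5) : K :=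
  d q.1 q.2.1 * d q.2.2.1 q.2.2.2

theorem vF_prod9 {p : Γ} (h0 : p ≠ 0) {d : Fin 5 → Fin 5 → K} {γ : Fin 5 → Fin 5 → ℤ}
    (h : ∀ a b, a ≠ b → vF w (d a b) = p ^ γ a b) : vF w (prod9 d) = p ^ sum9 γ := by
  unfold vF at *
  simp only [prod9, sum9, map_mul, zpow_add₀ h0]
  rw [h, h, h, h, h, h, h, h, h] <;> decide

theorem vF_qq {p : Γ} (h0 : p ≠ 0) {d : Fin 5 → Fin 5 → K} {γ : Fin 5 → Fin 5 → ℤ}
    (h : ∀ a b, a ≠ b → vF w (d a b) = p ^ γ a b) {q : Fin 5 × Fin 5 × Fin 5 × Fin 5}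
    (hq : q ∈ quads) : vF w (qq d q) = p ^ (γ q.1 q.2.1 + γ q.2.2.1 q.2.2.2) := by
  unfold vF at *
  rw [qq, map_mul, map_mul, zpow_add₀ h0, h _ _ (quads_lt hq).1.ne, h _ _ (quads_lt hq).2.ne]

end Pool.Agent.Lib.MP_62ba83_co.G
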