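import Pool.Agent.Lib.MP_62ba83_co.G.Defs
import Pool.Agent.Lib.MP_62ba83_co.G.Log

/-! General type from ten forms (text of helper52, adapted to the list of ten pairs). -/

set_option autoImplicit false

namespace Pool.Agent.Lib.MP_62ba83_co.G

theorem basis_coord (K : Type) [Field K] [CharZero K] (D : K) (x y : Fin 5 → K)
    (d : Fin 5 → Fin 5 → K) (hd : ∀ a b, d a b ^ 2 = (x a - x b) ^ 2 + D * (y a - y b) ^ 2)
    (x0 : x 0 = 0) (y0 : y 0 = 0) (x1 : x 1 = 1) (y1 : y 1 = 0) (y2 : y 2 = 1)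
    (ind : AlgebraicIndependent ℚ ![D, x 2, x 3, y 3, x 4, y 4])
    (gen : IntermediateField.adjoin ℚ ({D} ∪ Set.range x ∪ Set.range y ∪
      Set.range fun p : Fin 5 × Fin 5 => d p.1 p.2) = ⊤) :
    IsTranscendenceBasis ℚ ![D, x 2, x 3, y 3, x 4, y 4] := by
  rw [ind.isTranscendenceBasis_iff_isAlgebraic]
  set A := Algebra.adjoin ℚ (Set.range ![D, x 2, x 3, y 3, x 4, y 4])
  have hm : ∀ i, ![D, x 2, x 3, y 3, x 4, y 4] i ∈ A := fun i => Algebra.subset_adjoin ⟨i, rfl⟩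
  have hD : D ∈ A := hm 0
  have hx : ∀ i, x i ∈ A := by
    intro i
    fin_cases i
    exacts [x0 ▸ A.zero_mem, x1 ▸ A.one_mem, hm 1, hm 2, hm 4]
  have hy : ∀ i, y i ∈ A := by
    intro i
    fin_cases i
    exacts [y0 ▸ A.zero_mem, y1 ▸ A.zero_mem, y2 ▸ A.one_mem, hm 3, hm 5]
  have al : ∀ z ∈ A, IsAlgebraic A z := fun z hz => isAlgebraic_algebraMap (⟨z, hz⟩ : A)
  refine ⟨fun z => ?_⟩
  have hz : z ∈ IntermediateField.adjoin ℚ ({D} ∪ Set.range x ∪ Set.range y ∪
      Set.range fun p : Fin 5 × Fin 5 => d p.1 p.2) := gen ▸ IntermediateField.mem_top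
  induction hz using IntermediateField.adjoin_induction with
  | mem z hz =>
    rcases hz with ((rfl | ⟨i, rfl⟩) | ⟨i, rfl⟩) | ⟨p, rfl⟩
    · exact al _ hD
    · exact al _ (hx i)
    · exact al _ (hy i)
    · refine IsAlgebraic.of_pow two_pos (al _ ?_)
      rw [hd]
      exact add_mem (pow_mem (sub_mem (hx _) (hx _)) _)
        (mul_mem hD (pow_mem (sub_mem (hy _) (hy _)) _))
  | algebraMap q => exact al _ (A.algebraMap_mem q)
  | add a b _ _ ha hb => exact ha.add hb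
  | inv a _ ha => exact ha.inv
  | mul a b _ _ ha hb => exact ha.mul hb

/-- general type from ten forms -/
theorem gt_of_nopole (K : Type) [Field K] [CharZero K] (D : K) (x y : Fin 5 → K)
    (d : Fin 5 → Fin 5 → K) (hd : ∀ a b, d a b ^ 2 = (x a - x b) ^ 2 + D * (y a - y b) ^ 2)
    (x0 : x 0 = 0) (y0 : y 0 = 0) (x1 : x 1 = 1) (y1 : y 1 = 0) (y2 : y 2 = 1) (d01 : d 0 1 = 1)
    (ne : ∀ a b, a < b → d a b ≠ 0)
    (ind : AlgebraicIndependent ℚ ![D, x 2, x 3, y 3, x 4, y 4])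
    (gen : IntermediateField.adjoin ℚ ({D} ∪ Set.range x ∪ Set.range y ∪
      Set.range fun p : Fin 5 × Fin 5 => d p.1 p.2) = ⊤)
    (m : ℕ) (hm : 0 < m) (g : K) (hg : g ≠ 0)
    (H : ∀ q ∈ quads, NoPole m ![D, x 2, x 3, y 3, x 4, y 4] (g * qq d q)) : GeneralType K := by
  have n23 := ne 2 3 (by decide)
  refine ⟨6, m, _, g * (d 0 1 * d 2 3), by norm_num, hm,
    basis_coord K D x y d hd x0 y0 x1 y1 y2 ind gen, by simp [hg, d01, n23],
    H (0, 1, 2, 3) (by decide), ?_⟩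
  set L := IntermediateField.adjoin ℚ
    {h | NoPole m ![D, x 2, x 3, y 3, x 4, y 4] (g * (d 0 1 * d 2 3) * h)}
  have r : ∀ a b c e : Fin 5, (a, b, c, e) ∈ quads → d a b * d c e / d 2 3 ∈ L := by
    intro a b c e h
    apply IntermediateField.subset_adjoin
    have : g * (d 0 1 * d 2 3) * (d a b * d c e / d 2 3) = g * (d a b * d c e) := by
      rw [d01]; field_simp
    rw [Set.mem_ofPred_eq, this]
    exact H _ h
  have st : ∀ a b c e : Fin 5, (a, b, c, e) ∈ quads ∧ (0, 1, c, e) ∈ quads → d a b ∈ L := by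
    rintro a b c e ⟨h, h'⟩
    have n2 : d c e ≠ 0 := ne _ _ (quads_lt h').2
    have : d a b = d a b * d c e / d 2 3 / (d 0 1 * d c e / d 2 3) := by
      rw [d01]; field_simp
    rw [this]
    exact div_mem (r _ _ _ _ h) (r _ _ _ _ h')
  have l01 : d 0 1 ∈ L := d01 ▸ L.one_mem
  have l02 := st 0 2 3 4 (by decide)
  have l03 := st 0 3 2 4 (by decide)
  have l04 := st 0 4 2 3 (by decide)
  have l12 := st 1 2 3 4 (by decide)
  have l13 := st 1 3 2 4 (by decide)
  have l14 := st 1 4 2 3 (by decide)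
  have l23 : d 2 3 ∈ L := by
    have n1 := ne 0 2 (by decide)
    have n2 := ne 1 3 (by decide)
    have : d 2 3 = d 0 2 * d 1 3 / (d 0 2 * d 1 3 / d 2 3) := by field_simp
    rw [this]
    exact div_mem (mul_mem l02 l13) (r 0 2 1 3 (by decide))
  have st' : ∀ c e : Fin 5, (0, 1, c, e) ∈ quads → d c e ∈ L := by
    intro c e h
    have : d c e = d 0 1 * d c e / d 2 3 * d 2 3 := by
      rw [d01]; field_simp
    rw [this]
    exact mul_mem (r _ _ _ _ h) l23
  have l24 := st' 2 4 (by decide)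
  have l34 := st' 3 4 (by decide)
  have lt : ∀ a b, a < b → d a b ∈ L := by
    intro a b h
    fin_cases a <;> fin_cases b <;> first | assumption | exact absurd h (by decide)
  have all : ∀ a b, d a b ∈ L := by
    intro a b
    rcases lt_trichotomy a b with h | rfl | h
    · exact lt a b h
    · have : d a a = 0 := pow_eq_zero_iff two_ne_zero |>.1 (by rw [hd]; ring)
      exact this ▸ L.zero_mem
    · have : d a b ^ 2 = d b a ^ 2 := by rw [hd, hd]; ring
      rcases sq_eq_sq_iff_eq_or_eq_neg.1 this with e | e <;> rw [e]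
      exacts [lt b a h, neg_mem (lt b a h)]
  have two : (2 : K) ∈ L := by exact_mod_cast natCast_mem L 2
  have hx : ∀ j, x j ∈ L := by
    intro j
    have : x j = (1 + d 0 j ^ 2 - d 1 j ^ 2) / 2 := by
      rw [hd, hd, x0, x1, y0, y1]; ring
    rw [this]
    exact div_mem (sub_mem (add_mem L.one_mem (pow_mem (all _ _) _)) (pow_mem (all _ _) _)) two
  have hD : D ∈ L := by
    have : D = d 0 2 ^ 2 - x 2 ^ 2 := by rw [hd, x0, y0, y2]; ring
    rw [this]
    exact sub_mem (pow_mem (all _ _) _) (pow_mem (hx _) _)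
  have D0 : D ≠ 0 := ind.ne_zero 0
  have hy : ∀ j, y j ∈ L := by
    intro j
    have : y j = ((d 0 j ^ 2 + d 0 2 ^ 2 - d 2 j ^ 2) / 2 - x j * x 2) / D := by
      rw [hd, hd, hd, x0, y0, y2]; field_simp; ring
    rw [this]
    exact div_mem (sub_mem (div_mem (sub_mem (add_mem (pow_mem (all _ _) _) (pow_mem (all _ _) _))
      (pow_mem (all _ _) _)) two) (mul_mem (hx _) (hx _))) hD
  have top : ⊤ ≤ L := by
    rw [← gen, IntermediateField.adjoin_le_iff]
    rintro z (((rfl | ⟨i, rfl⟩) | ⟨i, rfl⟩) | ⟨p, rfl⟩)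
    exacts [hD, hx i, hy i, all _ _]
  exact ⟨fun z => isAlgebraic_algebraMap (⟨z, top trivial⟩ : L)⟩

end Pool.Agent.Lib.MP_62ba83_co.G
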