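import Pool.Agent.Lib.MP_62ba83_co.G.Reg
import Pool.Agent.Lib.MP_62ba83_co.G.Ratio

/-! The function field of five points with their distances is of general type. -/

set_option autoImplicit false

namespace Pool.Agent.Lib.MP_62ba83_co.G

open Matrix

variable {K : Type} [Field K] [CharZero K]

/-- the order of the six coordinates -/
noncomputable def ord6 : Ix ≃ Fin 6 :=
  Equiv.ofBijective (fun j => ![![1, 2, 4], ![0, 3, 5]] j.1 j.2) (by decide)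

theorem det_jac (D : K) {x y : Fin 5 → K} (y2 : y 2 = 1)
    (δ : Fin 6 → Derivation ℚ K K) : (jac (fun i => δ (ord6 i)) (-D) x y).det =
      (2 * D)⁻¹ * (of fun j i => δ i (![D, x 2, x 3, y 3, x 4, y 4] j)).det := by
  rw [← det_submatrix_equiv_self ord6 (of _), ← det_transpose, ← smul_eq_mul,
    ← updateRow_eq_self (submatrix _ _ _) (1, 0), smul_eq_mul, ← det_updateRow_smul]
  refine det_eq_of_forall_row_eq_smul_add_const (fun j => ![![0, 0, 0], ![0, y 3, y 4]] j.1 j.2)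
    (1, 0) rfl fun ⟨t, a⟩ i => ?_
  fin_cases t <;> fin_cases a <;> simp [jac, co, ord6, y2, updateRow_apply, div_eq_inv_mul]

/-- the local theorem, in any field -/
theorem nopole_coord {D : K} {x y : Fin 5 → K} {d : Fin 5 → Fin 5 → K}
    (hd : ∀ a b, d a b ^ 2 = (x a - x b) ^ 2 + D * (y a - y b) ^ 2)
    (x0 : x 0 = 0) (y0 : y 0 = 0) (x1 : x 1 = 1) (y1 : y 1 = 0) (y2 : y 2 = 1) (d01 : d 0 1 = 1)
    (ne : ∀ a b, a < b → d a b ≠ 0) (D0 : D ≠ 0) {q q' : Fin 5 × Fin 5 × Fin 5 × Fin 5}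
    (hq : q ∈ quads) (hq' : q' ∈ quads) :
    NoPole 2 ![D, x 2, x 3, y 3, x 4, y 4] (-D * qq d q' / (4 * prod9 d ^ 2) * qq d q) := by
  intro v hv hQ δ hδ
  have S : Sys (-D) x y d :=
    ⟨fun a b => by rw [hd]; ring, x0, y0, x1, y1, d01, ne, neg_ne_zero.2 D0⟩
  have R := reg S v hv hQ (fun i => δ (ord6 i)) (fun i => hδ _) hq hq'
  rw [det_jac D y2] at R
  refine le_of_eq_of_le (congrArg v ?_) R
  field_simp
  ring

theorem prod9_ne {d : Fin 5 → Fin 5 → K} (ne : ∀ a b, a < b → d a b ≠ 0) : prod9 d ≠ 0 := by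
  simp only [prod9, mul_ne_zero_iff]
  refine ⟨⟨⟨⟨⟨⟨⟨⟨?_, ?_⟩, ?_⟩, ?_⟩, ?_⟩, ?_⟩, ?_⟩, ?_⟩, ?_⟩ <;> exact ne _ _ (by decide)

theorem gt_coord (K : Type) [Field K] [CharZero K] (D : K) (x y : Fin 5 → K)
    (d : Fin 5 → Fin 5 → K) (hd : ∀ a b, d a b ^ 2 = (x a - x b) ^ 2 + D * (y a - y b) ^ 2)
    (x0 : x 0 = 0) (y0 : y 0 = 0) (x1 : x 1 = 1) (y1 : y 1 = 0) (y2 : y 2 = 1) (d01 : d 0 1 = 1)
    (ne : ∀ a b, a < b → d a b ≠ 0)
    (ind : AlgebraicIndependent ℚ ![D, x 2, x 3, y 3, x 4, y 4])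
    (gen : IntermediateField.adjoin ℚ ({D} ∪ Set.range x ∪ Set.range y ∪
      Set.range fun p : Fin 5 × Fin 5 => d p.1 p.2) = ⊤) : GeneralType K := by
  have D0 : D ≠ 0 := ind.ne_zero 0
  have p0 := prod9_ne ne
  have q0 : qq d (0, 1, 2, 3) ≠ 0 := mul_ne_zero (ne _ _ (by decide)) (ne _ _ (by decide))
  exact gt_of_nopole K D x y d hd x0 y0 x1 y1 y2 d01 ne ind gen 2 two_pos
    (-D * qq d (0, 1, 2, 3) / (4 * prod9 d ^ 2)) (by simp [D0, p0, q0]) fun q hq =>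
    nopole_coord hd x0 y0 x1 y1 y2 d01 ne D0 hq (by decide)

end Pool.Agent.Lib.MP_62ba83_co.G
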