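import Pool.Agent.Lib.MP_62ba83_co.G.Core

/-! The ramified case, and the bound at every discrete valuation. -/

set_option autoImplicit false
set_option linter.unusedSectionVars false

namespace Pool.Agent.Lib.MP_62ba83_co.G

open Matrix

variable {K M Γ : Type} [Field K] [CharZero K] [Field M] [Algebra K M]
  [LinearOrderedCommGroupWithZero Γ] {w : Valuation M Γ}
  {π l : K} {x y : Fin 5 → K} {d : Fin 5 → Fin 5 → K} {s : M}

theorem pw_sq {p : Γ} (n : ℤ) : (p ^ n) ^ 2 = p ^ (2 * n) := by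
  rw [← zpow_natCast, ← _root_.zpow_mul, mul_comm]
  rfl

theorem odd_edge (P : Plc w π l s) {k : ℤ} (hk : vF w l = vF w π ^ (2 * k + 1)) {A B D : K} {g : ℤ}
    (h : D ^ 2 = A ^ 2 - l * B ^ 2) (hg : vF w D = vF w π ^ g) :
    vF w A = vF w π ^ g ∧ vF w l * vF w B ^ 2 ≤ vF w π ^ (2 * g + 1) := by
  let v := w.comap (algebraMap K M)
  have e : v (A ^ 2 - l * B ^ 2) = vF w π ^ (2 * g) := by
    rw [← h, map_pow, ← pw_sq, ← hg]
    rfl
  by_cases hB : B = 0
  · obtain ⟨m, hm⟩ := P.hF A fun hA => zpow_ne_zero _ P.p0 (e.symm.trans (by simp [hA, hB]))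
    have : v (A ^ 2 - l * B ^ 2) = vF w π ^ (2 * m) := by
      rw [hB, ← pw_sq, ← hm]
      simp [v, vF]
    have := pw_inj P.p0 P.h1 (this.symm.trans e)
    exact ⟨by rw [hm]; congr 1; omega, by simp [hB, vF]⟩
  obtain ⟨n, hn⟩ := P.hF B hB
  have eB : v (l * B ^ 2) = vF w π ^ (2 * k + 1 + 2 * n) := by
    rw [map_mul, map_pow, zpow_add₀ P.p0, ← hk, ← pw_sq, ← hn]
    rfl
  by_cases hA : A = 0
  · rw [hA, zero_pow two_ne_zero, zero_sub, v.map_neg, eB] at e
    have := pw_inj P.p0 P.h1 e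
    omega
  obtain ⟨m, hm⟩ := P.hF A hA
  have eA : v (A ^ 2) = vF w π ^ (2 * m) := by
    rw [map_pow, ← pw_sq, ← hm]
    rfl
  by_cases hc : 2 * m ≤ 2 * k + 1 + 2 * n
  · rw [v.map_sub_eq_of_lt_left (by rw [eA, eB, ← not_le, pw_le P.p0 P.h1]; omega), eA] at e
    have := pw_inj P.p0 P.h1 e
    refine ⟨by rw [hm]; congr 1; omega, ?_⟩
    rw [hk, hn, pw_sq, ← zpow_add₀ P.p0, pw_le P.p0 P.h1]
    omega
  · rw [v.map_sub_eq_of_lt_right (by rw [eA, eB, ← not_le, pw_le P.p0 P.h1]; omega), eB] at e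
    have := pw_inj P.p0 P.h1 e
    omega

theorem reg_ac {N : Type} [CommMonoid N] (a b c e f : N) :
    (a * (b * c * e)) ^ 2 * f ^ 3 = a ^ 2 * (f * b ^ 2 * (f * c ^ 2) * (f * e ^ 2)) := by
  simp only [sq, pow_three]
  ac_rfl

/-- the ramified case -/
theorem reg_odd (S : Sys l x y d) (P : Plc w π l s) {k : ℤ} (hk : vF w l = vF w π ^ (2 * k + 1))
    (δ : Ix → Derivation ℚ K K) (hδ : ∀ i, Pr w (δ i)) {q q' : Fin 5 × Fin 5 × Fin 5 × Fin 5}
    (hq : q ∈ quads) (hq' : q' ∈ quads) :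
    vF w (qq d q) * vF w (qq d q') * (vF w (jac δ l x y).det ^ 2 * vF w l ^ 3) ≤
      vF w (prod9 d) ^ 2 := by
  obtain ⟨γ, hγ, γ0⟩ := S.exp P
  have E := fun a b h => odd_edge P hk (S.hd a b) (hγ a b h)
  obtain ⟨pa, hpa, Ha⟩ := tree (w := w) P.p0 P.h1 (fun a => algebraMap K M (x a)) γ
    (fun a b h => by rw [← map_sub]; exact (E a b h).1) γ0
  have a1 := (Ha q hq).1
  have a2 := (Ha q' hq').1
  obtain ⟨δ', h1, h2⟩ := exists_lg P.h0 P.h1 P.hF δ hδ l x y
  have e2 := det_tree (fun t a i => co (δ' i) l (x a) (y a) t)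
    (fun t i => (co_zero S _ _).1) (fun t i => (co_zero S _ _).2) (fun _ => pa) fun _ => hpa
  have B := det_le (w.comap (algebraMap K M)) (of fun (i j : Ix) =>
    co (δ' i) l (x (pa j.2)) (y (pa j.2)) j.1 - co (δ' i) l (x (j.2.addNat 2)) (y (j.2.addNat 2)) j.1)
    (fun j => ![vF w π ^ γ (pa j.2) (j.2.addNat 2), vF w (y (pa j.2) - y (j.2.addNat 2))] j.1) ?_
  · rw [e2, Fintype.prod_prod_type, Fin.prod_univ_two] at B
    simp only [cons_val_zero, cons_val_one, cons_val_fin_one, Fin.prod_univ_three] at B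
    have B' : vF w π * vF w (jac δ l x y).det ≤ _ := le_of_eq_of_le
      ((map_mul (w.comap (algebraMap K M)) _ _).symm.trans (congrArg _ h2.symm)) B
    have b0 := (E _ _ (hpa 0).ne).2
    have b1 := (E _ _ (hpa 1).ne).2
    have b2 := (E _ _ (hpa 2).ne).2
    rw [vF_prod9 P.p0 hγ, vF_qq P.p0 hγ hq, vF_qq P.p0 hγ hq']
    rw [Fin.sum_univ_three] at a1 a2
    generalize γ (pa 0) (Fin.addNat 0 2) = m0 at *
    generalize γ (pa 1) (Fin.addNat 1 2) = m1 at *
    generalize γ (pa 2) (Fin.addNat 2 2) = m2 at *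
    generalize vF w (y (pa 0) - y (Fin.addNat 0 2)) = c0 at *
    generalize vF w (y (pa 1) - y (Fin.addNat 1 2)) = c1 at *
    generalize vF w (y (pa 2) - y (Fin.addNat 2 2)) = c2 at *
    have C : vF w π ^ (2 : ℤ) * (vF w (jac δ l x y).det ^ 2 * vF w l ^ 3) ≤
        (vF w π ^ m0 * vF w π ^ m1 * vF w π ^ m2) ^ 2 *
          (vF w π ^ (2 * m0 + 1) * vF w π ^ (2 * m1 + 1) * vF w π ^ (2 * m2 + 1)) :=
      calc _ = (vF w π * vF w (jac δ l x y).det) ^ 2 * vF w l ^ 3 := by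
            rw [mul_pow, mul_assoc, zpow_ofNat]
        _ ≤ (vF w π ^ m0 * vF w π ^ m1 * vF w π ^ m2 * (c0 * c1 * c2)) ^ 2 * vF w l ^ 3 :=
            mul_le_mul_left (pow_le_pow_left' B' 2) _
        _ = (vF w π ^ m0 * vF w π ^ m1 * vF w π ^ m2) ^ 2 *
            (vF w l * c0 ^ 2 * (vF w l * c1 ^ 2) * (vF w l * c2 ^ 2)) := reg_ac _ _ _ _ _
        _ ≤ _ := mul_le_mul_right (mul_le_mul' (mul_le_mul' b0 b1) b2) _
    refine le_of_mul_le_mul_left ?_ (zero_lt_iff.2 (zpow_ne_zero (2 : ℤ) P.p0))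
    rw [mul_left_comm]
    refine (mul_le_mul_right C _).trans ?_
    simp only [← zpow_add₀ P.p0, pw_sq]
    rw [pw_le P.p0 P.h1]
    omega
  · rintro i ⟨t, a⟩
    rw [of_apply, ← co_sub]
    fin_cases t
    · exact (h1 i _).trans_eq (E _ _ (hpa a).ne).1
    · exact dotb_le w P.h2 (h1 i) _

theorem reg_plc (S : Sys l x y d) (P : Plc w π l s) (δ : Ix → Derivation ℚ K K)
    (hδ : ∀ i, Pr w (δ i)) {q q' : Fin 5 × Fin 5 × Fin 5 × Fin 5} (hq : q ∈ quads)
    (hq' : q' ∈ quads) :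
    vF w (qq d q) * vF w (qq d q') * (vF w (jac δ l x y).det ^ 2 * vF w l ^ 3) ≤
      vF w (prod9 d) ^ 2 := by
  obtain ⟨n, hn⟩ := P.hF l S.l0
  have hl : vF w l = w s ^ 2 := by rw [vF, ← P.hs, map_mul, sq]
  obtain ⟨k, rfl | rfl⟩ := Int.even_or_odd' n
  · have hk : w s = vF w π ^ k :=
      (pow_left_inj₀ zero_le zero_le two_ne_zero).1 (by rw [← hl, hn, pw_sq])
    refine le_of_eq_of_le ?_ ((mul_le_mul' (reg_even S P hk δ hδ hq)
      (reg_even S P hk δ hδ hq')).trans_eq (sq _).symm)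
    simp only [hl, sq, pow_three]
    ac_rfl
  · exact reg_odd S P hn δ hδ hq hq'

/-- a discrete valuation extends to every field extension -/
theorem exists_ext (M : Type) [Field M] [Algebra K M]
    (v : Valuation K (WithZero (Multiplicative ℤ))) {π : K} (h1 : v π < 1)
    (h : ∀ a, v a < 1 → v a ≤ v π) (h0 : π ≠ 0) :
    ∃ B : ValuationSubring M, ∀ a : K, vF B.valuation a ≤ 1 ↔ v a ≤ 1 := by
  let A : Subring M := v.integer.map (algebraMap K M)
  let t : A := ⟨algebraMap K M π, π, h1.le, rfl⟩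
  obtain ⟨B, hA, hB⟩ := Ideal.image_subset_nonunits_valuationSubring (Ideal.span {t}) (by
    rw [Ne, Ideal.span_singleton_eq_top, isUnit_iff_exists_inv]
    rintro ⟨⟨_, a, ha, rfl⟩, e⟩
    have e' : π * a = 1 := (algebraMap K M).injective (by simpa [t] using congrArg Subtype.val e)
    have := congrArg v e'
    rw [map_mul, map_one] at this
    exact (mul_lt_one_of_lt_of_le h1 ha).ne this)
  have h2 : ∀ a : K, v a ≤ 1 → vF B.valuation a ≤ 1 := fun a ha =>
    (B.valuation_le_one_iff _).2 (hA ⟨a, ha, rfl⟩)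
  have h3 : vF B.valuation π < 1 :=
    (B.mem_nonunits_iff).1 (hB ⟨t, Ideal.subset_span rfl, rfl⟩)
  refine ⟨B, fun a => ⟨fun ha => not_lt.1 fun hv => ?_, h2 a⟩⟩
  have a0 : a ≠ 0 := fun e => by simp [e] at hv
  have h4 : v a⁻¹ ≤ v π := h _ (by rw [map_inv₀]; exact inv_lt_one_of_one_lt₀ hv)
  have h5 := h2 (a⁻¹ / π) (by rw [map_div₀]; exact div_le_one_of_le₀ h4 zero_le)
  have h6 : vF B.valuation π * (vF B.valuation a * vF B.valuation (a⁻¹ / π)) = 1 := by
    unfold vF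
    rw [← map_mul, ← map_mul, ← map_mul, ← map_mul, show π * (a * (a⁻¹ / π)) = 1 by field_simp,
      map_one, map_one]
  exact (mul_lt_one_of_lt_of_le h3 (mul_le_one' ha h5)).ne h6

/-- the forms have no pole -/
theorem reg (S : Sys l x y d) (v : Valuation K (WithZero (Multiplicative ℤ)))
    (hv : Function.Surjective v) (hQ : ∀ q : ℚ, v (q : K) ≤ 1) (δ : Ix → Derivation ℚ K K)
    (hδ : ∀ i a, v a ≤ 1 → v (δ i a) ≤ 1) {q q' : Fin 5 × Fin 5 × Fin 5 × Fin 5} (hq : q ∈ quads)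
    (hq' : q' ∈ quads) :
    v (qq d q * qq d q' * ((jac δ l x y).det ^ 2 * l ^ 3) / prod9 d ^ 2) ≤ 1 := by
  obtain ⟨π, hπ⟩ := hv (WithZero.exp (-1))
  have h0 : π ≠ 0 := fun e => WithZero.exp_ne_zero (hπ.symm.trans (by rw [e, map_zero]))
  have h1 : v π < 1 := by rw [hπ, ← WithZero.exp_zero, WithZero.exp_lt_exp]; decide
  have hz : ∀ a : K, a ≠ 0 → ∃ n : ℤ, v a = WithZero.exp n := fun a ha =>
    ⟨_, (WithZero.exp_log (by simpa using ha)).symm⟩
  obtain ⟨B, hB⟩ := exists_ext (AlgebraicClosure K) v h1 (fun a ha => by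
    by_cases a0 : a = 0
    · simp [a0]
    obtain ⟨n, hn⟩ := hz a a0
    rw [hn, ← WithZero.exp_zero, WithZero.exp_lt_exp] at ha
    rw [hn, hπ, WithZero.exp_le_exp]
    omega) h0
  have one : ∀ a : K, v a = 1 → vF B.valuation a = 1 := fun a ha => by
    have a0 : a ≠ 0 := fun e => by simp [e] at ha
    refine le_antisymm ((hB a).2 ha.le) ?_
    have := (hB a⁻¹).2 (by rw [map_inv₀, ha, inv_one])
    rwa [vF, map_inv₀, map_inv₀, inv_le_one₀ (zero_lt_iff.2 (by simpa using a0))] at this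
  obtain ⟨s, hs⟩ := IsAlgClosed.exists_eq_mul_self (algebraMap K (AlgebraicClosure K) l)
  have P : Plc B.valuation π l s := by
    refine ⟨h0, not_le.1 fun h => ?_, fun a ha => ?_, ?_, hs.symm⟩
    · have := (hB π⁻¹).1 (by
        rw [vF, map_inv₀, map_inv₀]
        exact inv_le_one_of_one_le₀ h)
      rw [map_inv₀, inv_le_one₀ (zero_lt_iff.2 (by simpa using h0))] at this
      exact this.not_gt h1
    · obtain ⟨n, hn⟩ := hz a ha
      have := one (a * π ^ n) (by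
        rw [map_mul, map_zpow₀, hn, hπ, ← WithZero.exp_zsmul, ← WithZero.exp_add]
        simp)
      rw [vF, map_mul, map_mul, map_zpow₀, map_zpow₀] at this
      exact ⟨-n, by rw [_root_.zpow_neg]; exact eq_inv_of_mul_eq_one_left this⟩
    · have h2 := hQ 2
      have h3 := hQ 2⁻¹
      rw [Rat.cast_inv, map_inv₀, inv_le_one₀ (zero_lt_iff.2 (by simp))] at h3
      have := one _ (le_antisymm h2 h3)
      simpa [vF, map_ofNat] using this
  have R := reg_plc S P δ (fun i a ha => (hB _).2 (hδ i a ((hB a).1 ha))) hq hq'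
  refine (hB _).1 ?_
  simp only [vF, map_div₀, map_mul, map_pow] at R ⊢
  exact div_le_one_of_le₀ R zero_le

end Pool.Agent.Lib.MP_62ba83_co.G
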